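import Mathlib
import Pool.Agent.Lib.MP_0523aa_nt.Count

namespace Pool.Agent.Results.MP_0523aa_nt.HeightCount

open Polynomial Pool.Agent.Lib.MP_0523aa_nt

/-- The height of an integer polynomial: the largest absolute value of a coefficient. -/
noncomputable def height (f : ℤ[X]) : ℕ := f.support.sup (fun k => (f.coeff k).natAbs)

/-- The number of divisors of X^(2 q^b) - 1 in ℤ[X] of each height `h`: none of height at least
three, and an explicit positive number of height two when `b ≥ 1`. -/
theorem result (q b : ℕ) (hq : q.Prime) (hodd : Odd q) (h : ℕ) :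
    {f : ℤ[X] | f ∣ X ^ (2 * q ^ b) - 1 ∧ height f = h}.encard =
      ((if h = 1 then 4 * (4 ^ (b + 1) - 1) / 3 + 2 ^ (b + 2)
        else if h = 2 then 4 * (2 ^ b - 1) * (2 ^ (b + 1) - 1) / 3 else 0 : ℕ) : ℕ∞) := by
  classical
  have hle : ∀ (f : ℤ[X]) (k : ℕ), (f.coeff k).natAbs ≤ height f := fun f k => by
    by_cases hk : f.coeff k = 0
    · simp [hk]
    · exact Finset.le_sup (f := fun k => (f.coeff k).natAbs) (mem_support_iff.2 hk)
  have hh : ∀ f ∈ DD q b, height f = if Two f then 2 else 1 := by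
    intro f hf
    have hd := (mem_DD hq hodd b f).1 hf
    have h2 := bdd_two hq hodd b f hd
    have hf0 : f ≠ 0 := fun h0 => X_pow_sub_C_ne_zero (n := 2 * q ^ b)
      (Nat.mul_pos two_pos (pow_pos hq.pos b)) (1 : ℤ) (by simpa [h0] using hd)
    split_ifs with hT
    · obtain ⟨k, hk⟩ := hT
      have h3 := hle f k
      refine le_antisymm (Finset.sup_le fun j _ => ?_) (by rw [Int.abs_eq_natAbs] at hk; omega)
      have := h2 j
      rw [Int.abs_eq_natAbs] at this
      omega
    · have h3 := hle f f.natDegree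
      have h4 : f.coeff f.natDegree ≠ 0 := leadingCoeff_ne_zero.2 hf0
      refine le_antisymm (Finset.sup_le fun j _ => ?_) (by omega)
      have h5 := h2 j
      have h6 : |f.coeff j| ≠ 2 := fun h => hT ⟨j, h⟩
      rw [Int.abs_eq_natAbs] at h5 h6
      omega
  have e : {f : ℤ[X] | f ∣ X ^ (2 * q ^ b) - 1 ∧ height f = h} =
      ((DD q b).filter fun f => (if Two f then 2 else 1) = h : Finset ℤ[X]) := by
    ext f
    simp only [Set.mem_ofPred_eq, Finset.coe_filter, ← mem_DD hq hodd b f]
    exact and_congr_right fun hf => by rw [hh f hf]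
  rw [e, Set.encard_coe_eq_coe_finsetCard, Nat.cast_inj]
  obtain ⟨h0, h1⟩ := card_DD hq hodd b
  have h2 := Finset.card_filter_add_card_filter_not (s := DD q b) Two
  have h3 : cnt (DD q b) Two = ((DD q b).filter Two).card := by rw [cnt]
  obtain ⟨x, hx⟩ : ∃ x, 2 ^ b = x + 1 := ⟨2 ^ b - 1, by have := Nat.two_pow_pos b; omega⟩
  have h4 : 4 ^ b = x * x + 2 * x + 1 := by
    rw [show 4 = 2 * 2 from rfl, mul_pow, hx]; ring
  split_ifs with a1 a2
  · rw [Finset.filter_congr (q := fun f => ¬ Two f) fun f _ => by split_ifs <;> simp [*],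
      pow_succ, pow_succ, pow_succ]
    omega
  · rw [Finset.filter_congr (q := Two) fun f _ => by split_ifs <;> simp [*], pow_succ, hx,
      show 4 * (x + 1 - 1) * ((x + 1) * 2 - 1) = 8 * (x * x) + 4 * x by
        rw [show (x + 1) * 2 - 1 = 2 * x + 1 by omega, Nat.add_sub_cancel]; ring]
    omega
  · rw [Finset.card_eq_zero, Finset.filter_eq_empty_iff]
    intro f _
    split_ifs <;> omega

end Pool.Agent.Results.MP_0523aa_nt.HeightCount
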