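import Pool.Agent.FS.OnlyTwo.Main

set_option autoImplicit false

namespace Pool.Agent.Results.MP_0523aa_nt.OnlyTwo

open Polynomial Pool.Agent.FS.OnlyTwo

/-- For a prime q and m ≥ 2 not divisible by q, the coefficients of the divisors of
X^(m q^b) - 1 in ℤ[X] are bounded uniformly in b exactly when m = 2. -/
theorem result (m q : ℕ) (hm : 2 ≤ m) (hq : q.Prime) (hnd : ¬q ∣ m) :
    BddAbove {h : ℤ | ∃ (b : ℕ) (f : ℤ[X]) (k : ℕ), f ∣ X ^ (m * q ^ b) - 1 ∧ |f.coeff k| = h} ↔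
      m = 2 := by
  constructor
  · rintro ⟨M, hM⟩
    by_contra hne
    obtain ⟨n, f, k, hf, h⟩ := unbounded (by omega) hq hnd M.natAbs
    have h1 : |f.coeff k| ≤ M := hM ⟨n, f, k, (dvd_mul_right _ _).trans hf, rfl⟩
    omega
  · rintro rfl
    refine ⟨2, ?_⟩
    rintro h ⟨b, f, k, hf, rfl⟩
    exact Pool.Agent.Lib.MP_0523aa_nt.bdd_two hq
      (hq.odd_of_ne_two fun h => hnd (h ▸ dvd_rfl)) b f hf k

end Pool.Agent.Results.MP_0523aa_nt.OnlyTwo
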