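import Pool.Agent.FS.ThreeCase.Main

set_option autoImplicit false

namespace Pool.Agent.Results.MP_0523aa_nt.ThreeCase

open Polynomial Pool.Agent.FS.ThreeCase

/-- The largest absolute value of a coefficient of a divisor of X^(3 q^b) - 1 in ℤ[X]. -/
theorem result (q b : ℕ) (hq : q.Prime) (h3 : 3 < q) (hb : 1 ≤ b) :
    IsGreatest {h : ℤ | ∃ (f : ℤ[X]) (k : ℕ), f ∣ X ^ (3 * q ^ b) - 1 ∧ |f.coeff k| = h}
      (3 * 2 ^ ((b - 1) / 2)) := by
  obtain ⟨c, rfl⟩ := Nat.exists_eq_add_of_le' hb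
  rw [Nat.add_sub_cancel]
  refine ⟨lower hq h3 c, ?_⟩
  rintro h ⟨f, k, hf, rfl⟩
  exact upper hq h3 c f hf k

end Pool.Agent.Results.MP_0523aa_nt.ThreeCase
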